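import Pool.Agent.W289.CG.Stm

/-!
# CG-UNI: units modulo `ℓ`-th powers and the sign
-/

set_option autoImplicit false

namespace Pool.Agent.W125.CG

open NumberField Pool.Agent.W289.CG

/-- a primitive root of unity from the order of a unit -/
lemma prim_of_dvd {K : Type} [Field K] [NumberField K] (ζ : (𝓞 K)ˣ) (h0 : orderOf ζ ≠ 0)
    {d : ℕ} (hd : d ∣ orderOf ζ) : ∃ ξ : K, IsPrimitiveRoot ξ d := by
  obtain ⟨e, he⟩ := hd
  have he0 : e ≠ 0 := by rintro rfl; exact h0 (by rw [he, mul_zero])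
  have h1 : IsPrimitiveRoot ζ (orderOf ζ) := IsPrimitiveRoot.orderOf ζ
  have h2 : IsPrimitiveRoot (ζ ^ e) d :=
    h1.pow (Nat.pos_of_ne_zero h0) (by rw [he, mul_comm])
  refine ⟨algebraMap (𝓞 K) K ((ζ ^ e : (𝓞 K)ˣ) : 𝓞 K), ?_⟩
  have h3 : IsPrimitiveRoot ((ζ ^ e : (𝓞 K)ˣ) : 𝓞 K) d := IsPrimitiveRoot.coe_units_iff.2 h2
  exact h3.map_of_injective (RingOfIntegers.coe_injective)

/-- torsion units are powers up to the sign -/
lemma tors {K : Type} [Field K] [NumberField K] {ℓ : ℕ} (hℓ : ℓ.Prime)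
    (h1 : ℓ ≠ 2 → ¬ ∃ ζ : K, IsPrimitiveRoot ζ ℓ) (h2 : ℓ = 2 → ¬ ∃ ζ : K, IsPrimitiveRoot ζ 4)
    (ζ : (𝓞 K)ˣ) (h0 : orderOf ζ ≠ 0) : ∃ w : (𝓞 K)ˣ, ζ = w ^ ℓ ∨ ζ = - w ^ ℓ := by
  by_cases hc : Nat.Coprime ℓ (orderOf ζ)
  · obtain ⟨m, hm⟩ := exists_pow_eq_self_of_coprime hc
    refine ⟨ζ ^ m, Or.inl ?_⟩
    rw [← pow_mul, mul_comm, pow_mul, hm]
  · have hd : ℓ ∣ orderOf ζ := by
      by_contra hd
      exact hc ((hℓ.coprime_iff_not_dvd).2 hd)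
    by_cases h3 : ℓ = 2
    · subst h3
      obtain ⟨e, he⟩ := hd
      have hodd : e % 2 = 1 := by
        by_contra h4
        have h5 : 2 ∣ e := by omega
        obtain ⟨f, hf⟩ := h5
        exact h2 rfl (prim_of_dvd ζ h0 ⟨f, by rw [he, hf]; ring⟩)
      have he0 : 0 < e := by omega
      have h6 : (ζ ^ e) ^ 2 = 1 := by
        rw [← pow_mul, mul_comm, ← he]
        exact pow_orderOf_eq_one ζ
      have h7 : ζ ^ e ≠ 1 := by
        intro h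
        have h8 := Nat.le_of_dvd he0 (orderOf_dvd_of_pow_eq_one h)
        omega
      have h8 : ζ ^ e = -1 := by
        have h9 : ((ζ ^ e : (𝓞 K)ˣ) : 𝓞 K) ^ 2 = 1 := by
          rw [← Units.val_pow_eq_pow_val, h6]
          rfl
        rcases sq_eq_one_iff.1 h9 with h | h
        · exact absurd (Units.ext h) h7
        · exact Units.ext (by rw [h]; rfl)
      refine ⟨ζ ^ ((e + 1) / 2), Or.inr ?_⟩
      rw [← pow_mul]
      have h9 : (e + 1) / 2 * 2 = e + 1 := by omega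
      rw [h9, pow_succ, h8]
      simp
    · exact absurd (prim_of_dvd ζ h0 hd) (h1 h3)

theorem uni : TaskUni := by
  intro K _ _ ℓ hℓ h1 h2 u
  obtain ⟨⟨ζ, n⟩, hu, _⟩ := Units.exist_unique_eq_mul_prod K u
  have hz0 : orderOf (ζ : (𝓞 K)ˣ) ≠ 0 := by
    have h3 : (ζ : (𝓞 K)ˣ) ∈ Units.torsion K := ζ.2
    have h4 : IsOfFinOrder (ζ : (𝓞 K)ˣ) := (CommGroup.mem_torsion (ζ : (𝓞 K)ˣ)).1 h3
    exact (orderOf_pos_iff.2 h4).ne'
  obtain ⟨w, hw⟩ := tors hℓ h1 h2 (ζ : (𝓞 K)ˣ) hz0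
  have hl0 : (0 : ℤ) < ℓ := by exact_mod_cast hℓ.pos
  have hr : ∀ i, (n i % (ℓ : ℤ)).toNat < ℓ := by
    intro i
    have h5 := Int.emod_lt_of_pos (n i) hl0
    have h6 := Int.emod_nonneg (n i) hl0.ne'
    omega
  refine ⟨fun i => ⟨(n i % (ℓ : ℤ)).toNat, hr i⟩,
    (∏ i, Units.fundSystem K i ^ (n i / (ℓ : ℤ))) * w, ?_⟩
  have hp : ∏ i, Units.fundSystem K i ^ n i =
      (∏ i, Units.fundSystem K i ^ (n i % (ℓ : ℤ)).toNat) *
        (∏ i, Units.fundSystem K i ^ (n i / (ℓ : ℤ))) ^ ℓ := by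
    rw [← Finset.prod_pow, ← Finset.prod_mul_distrib]
    refine Finset.prod_congr rfl fun i _ => ?_
    rw [← zpow_natCast, ← zpow_natCast, ← zpow_mul, ← zpow_add]
    congr 1
    have h6 := Int.emod_nonneg (n i) hl0.ne'
    have h7 := Int.emod_add_mul_ediv (n i) ℓ
    rw [Int.toNat_of_nonneg h6]
    linarith
  have hu' : u = (ζ : (𝓞 K)ˣ) * ∏ i, Units.fundSystem K i ^ n i := hu
  rw [hu', hp, mul_pow]
  rcases hw with hw | hw
  · left
    rw [hw]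
    simp only
    rw [mul_comm, mul_assoc]
  · right
    rw [hw]
    simp only
    rw [neg_mul, mul_comm (w ^ ℓ), mul_assoc]

end Pool.Agent.W125.CG
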